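import Pool.Agent.H16.GPS.Num.Defs
import Pool.Agent.H16.SB3

/-!
GPS: parameters and asymptotic inequalities for the final assembly.
-/

set_option autoImplicit false

open Finset Filter

namespace Pool.Agent.H16.GPS

open Pool.Agent.H16

/-- number of generators -/
noncomputable def sN (cs ℓ : ℝ) : ℕ := ⌈cs * Real.log ℓ⌉₊

/-- side of the boxes -/
noncomputable def HN (κ : ℕ) (cs τ ℓ : ℝ) : ℕ :=
  ⌈2 * (sN cs ℓ : ℝ) * ((3 * κ.factorial : ℕ) : ℝ) / τ⌉₊ + 3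

/-- margin -/
noncomputable def QN (κ n : ℕ) (cs τ ℓ : ℝ) : ℕ := κ * (κ * n * HN κ cs τ ℓ)

/-- modulus -/
noncomputable def VN (κ n : ℕ) (cs τ ℓ : ℝ) : ℕ :=
  κ.factorial * (2 * sN cs ℓ * QN κ n cs τ ℓ) + 1

/-- length of the range of `A` -/
noncomputable def YN (ℓ : ℝ) : ℕ := ⌊Real.exp (ℓ - 2 * (Real.log ℓ) ^ 5 - (Real.log ℓ) ^ 4)⌋₊

lemma sN_le {cs ℓ : ℝ} (hcs : 0 ≤ cs) (hL : 1 ≤ Real.log ℓ) :
    (sN cs ℓ : ℝ) ≤ (cs + 1) * Real.log ℓ := by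
  unfold sN
  have h1 := Nat.ceil_lt_add_one (show 0 ≤ cs * Real.log ℓ by positivity)
  nlinarith

lemma HN_le {κ : ℕ} {cs τ ℓ : ℝ} (hcs : 0 ≤ cs) (hτ : 0 < τ) (hL : 1 ≤ Real.log ℓ) :
    (HN κ cs τ ℓ : ℝ) ≤ (2 * (cs + 1) * ((3 * κ.factorial : ℕ) : ℝ) / τ + 4) * Real.log ℓ := by
  unfold HN
  have h0 : (0 : ℝ) ≤ 2 * (sN cs ℓ : ℝ) * ((3 * κ.factorial : ℕ) : ℝ) / τ := by positivity
  have h1 := Nat.ceil_lt_add_one h0
  have h2 := sN_le hcs hL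
  have h3 : 2 * (sN cs ℓ : ℝ) * ((3 * κ.factorial : ℕ) : ℝ) / τ ≤
      (2 * (cs + 1) * ((3 * κ.factorial : ℕ) : ℝ) / τ) * Real.log ℓ := by
    rw [div_mul_eq_mul_div]
    apply div_le_div_of_nonneg_right _ hτ.le
    have h4 : (0 : ℝ) ≤ ((3 * κ.factorial : ℕ) : ℝ) := Nat.cast_nonneg _
    nlinarith
  rw [Nat.cast_add, Nat.cast_ofNat]
  nlinarith

lemma QN_le {κ n : ℕ} {cs τ ℓ : ℝ} (hcs : 0 ≤ cs) (hτ : 0 < τ) (hL : 1 ≤ Real.log ℓ) :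
    (QN κ n cs τ ℓ : ℝ) ≤
      (κ * (κ * n)) * ((2 * (cs + 1) * ((3 * κ.factorial : ℕ) : ℝ) / τ + 4) * Real.log ℓ) := by
  unfold QN
  have h := HN_le (κ := κ) hcs hτ hL
  push_cast
  push_cast at h
  calc (κ : ℝ) * (κ * n * (HN κ cs τ ℓ : ℝ)) = (κ * (κ * n)) * (HN κ cs τ ℓ : ℝ) := by ring
    _ ≤ _ := mul_le_mul_of_nonneg_left h (by positivity)

lemma VNs_le (κ n : ℕ) (cs τ : ℝ) (hcs : 0 ≤ cs) (hτ : 0 < τ) : ∃ C : ℝ, 0 < C ∧ ∀ ℓ : ℝ,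
    1 ≤ Real.log ℓ → ((VN κ n cs τ ℓ * sN cs ℓ : ℕ) : ℝ) ≤ C * (Real.log ℓ) ^ 3 := by
  set CQ : ℝ := (κ * (κ * n)) * (2 * (cs + 1) * ((3 * κ.factorial : ℕ) : ℝ) / τ + 4) with hCQ
  have hCQ0 : 0 ≤ CQ := by positivity
  refine ⟨(κ.factorial * (2 * (cs + 1) * CQ) + 1) * (cs + 1), by positivity, fun ℓ hL => ?_⟩
  have h1 := sN_le hcs hL
  have h2 : (QN κ n cs τ ℓ : ℝ) ≤ CQ * Real.log ℓ := by
    have := QN_le (κ := κ) (n := n) hcs hτ hL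
    rw [hCQ, mul_assoc]; exact this
  have hs0 : (0 : ℝ) ≤ sN cs ℓ := Nat.cast_nonneg _
  have hQ0 : (0 : ℝ) ≤ QN κ n cs τ ℓ := Nat.cast_nonneg _
  have hL0 : 0 ≤ Real.log ℓ := by linarith
  have h3 : (sN cs ℓ : ℝ) * (QN κ n cs τ ℓ : ℝ) ≤ ((cs + 1) * Real.log ℓ) * (CQ * Real.log ℓ) :=
    mul_le_mul h1 h2 hQ0 (by positivity)
  have h4 : (VN κ n cs τ ℓ : ℝ) ≤ (κ.factorial * (2 * (cs + 1) * CQ) + 1) * (Real.log ℓ) ^ 2 := by
    unfold VN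
    push_cast
    have h5 : (1 : ℝ) ≤ (Real.log ℓ) ^ 2 := one_le_pow₀ hL
    have h6 : (κ.factorial : ℝ) * (2 * sN cs ℓ * QN κ n cs τ ℓ) ≤
        κ.factorial * (2 * (((cs + 1) * Real.log ℓ) * (CQ * Real.log ℓ))) := by
      apply mul_le_mul_of_nonneg_left _ (Nat.cast_nonneg _)
      linarith
    calc (κ.factorial : ℝ) * (2 * sN cs ℓ * QN κ n cs τ ℓ) + 1
        ≤ κ.factorial * (2 * (((cs + 1) * Real.log ℓ) * (CQ * Real.log ℓ))) + (Real.log ℓ) ^ 2 :=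
          add_le_add h6 h5
      _ = _ := by ring
  push_cast
  calc (VN κ n cs τ ℓ : ℝ) * (sN cs ℓ : ℝ) ≤
      ((κ.factorial * (2 * (cs + 1) * CQ) + 1) * (Real.log ℓ) ^ 2) * ((cs + 1) * Real.log ℓ) :=
        mul_le_mul h4 h1 hs0 (by positivity)
    _ = _ := by ring

lemma ww_le {ℓ : ℝ} (hL : 0 ≤ Real.log ℓ) : (ww ℓ : ℝ) ≤ (Real.log ℓ) ^ 5 := by
  unfold ww
  exact Nat.floor_le (by positivity)

lemma ww_pow_le {ℓ : ℝ} (hL : 1 ≤ Real.log ℓ) (N : ℕ) :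
    (ww ℓ : ℝ) ^ N ≤ Real.exp ((N : ℝ) * (5 * Real.log (Real.log ℓ))) := by
  have hL0 : 0 < Real.log ℓ := by linarith
  have h1 : (ww ℓ : ℝ) ≤ Real.exp (5 * Real.log (Real.log ℓ)) := by
    refine (ww_le hL0.le).trans (le_of_eq ?_)
    rw [mul_comm, Real.exp_mul, Real.exp_log hL0]
    norm_cast
  calc (ww ℓ : ℝ) ^ N ≤ (Real.exp (5 * Real.log (Real.log ℓ))) ^ N :=
        pow_le_pow_left₀ (Nat.cast_nonneg _) h1 N
    _ = _ := by rw [← Real.exp_nat_mul]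

theorem ev_mx (κ n : ℕ) (cs τ : ℝ) (hcs : 0 ≤ cs) (hτ : 0 < τ) : ∀ᶠ ℓ : ℝ in atTop,
    (ww ℓ : ℝ) ^ (VN κ n cs τ ℓ * sN cs ℓ) ≤ Real.exp ((Real.log ℓ) ^ 4) := by
  obtain ⟨C, hC, h⟩ := VNs_le κ n cs τ hcs hτ
  have h1 := (Real.tendsto_log_atTop).eventually (ev_loglin (C * 5) 1 one_pos)
  have h2 := (Real.tendsto_log_atTop).eventually (eventually_ge_atTop (1 : ℝ))
  filter_upwards [h1, h2] with ℓ h1 h2
  refine (ww_pow_le h2 _).trans (Real.exp_le_exp.mpr ?_)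
  have h3 := h ℓ h2
  have hll : 0 ≤ 5 * Real.log (Real.log ℓ) := by
    have := Real.log_nonneg h2; linarith
  calc ((VN κ n cs τ ℓ * sN cs ℓ : ℕ) : ℝ) * (5 * Real.log (Real.log ℓ)) ≤
      (C * (Real.log ℓ) ^ 3) * (5 * Real.log (Real.log ℓ)) := mul_le_mul_of_nonneg_right h3 hll
    _ = (Real.log ℓ) ^ 3 * (C * 5 * Real.log (Real.log ℓ)) := by ring
    _ ≤ (Real.log ℓ) ^ 3 * (1 * Real.log ℓ) :=
        mul_le_mul_of_nonneg_left h1 (by positivity)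
    _ = _ := by ring

theorem ev_r (κ n : ℕ) (cs τ : ℝ) (hcs : 0 ≤ cs) (hτ : 0 < τ) : ∀ᶠ ℓ : ℝ in atTop,
    (ww ℓ : ℝ) ^ (sN cs ℓ * (κ * n * HN κ cs τ ℓ)) ≤ Real.exp ((Real.log ℓ) ^ 3) := by
  set CH : ℝ := (cs + 1) * ((κ * n) * (2 * (cs + 1) * ((3 * κ.factorial : ℕ) : ℝ) / τ + 4)) with hCH
  have h1 := (Real.tendsto_log_atTop).eventually (ev_loglin (CH * 5) 1 one_pos)
  have h2 := (Real.tendsto_log_atTop).eventually (eventually_ge_atTop (1 : ℝ))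
  filter_upwards [h1, h2] with ℓ h1 h2
  refine (ww_pow_le h2 _).trans (Real.exp_le_exp.mpr ?_)
  have hll : 0 ≤ 5 * Real.log (Real.log ℓ) := by
    have := Real.log_nonneg h2; linarith
  have hs := sN_le (ℓ := ℓ) hcs h2
  have hH := HN_le (κ := κ) hcs hτ h2
  have hL0 : 0 < Real.log ℓ := by linarith
  have h3 : ((sN cs ℓ * (κ * n * HN κ cs τ ℓ) : ℕ) : ℝ) ≤ CH * (Real.log ℓ) ^ 2 := by
    push_cast
    push_cast at hH
    calc (sN cs ℓ : ℝ) * (κ * n * (HN κ cs τ ℓ : ℝ)) ≤ ((cs + 1) * Real.log ℓ) *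
        (κ * n * ((2 * (cs + 1) * (3 * (κ.factorial : ℝ)) / τ + 4) * Real.log ℓ)) := by
          apply mul_le_mul hs _ (by positivity) (by positivity)
          exact mul_le_mul_of_nonneg_left hH (by positivity)
      _ = _ := by rw [hCH]; push_cast; ring
  calc ((sN cs ℓ * (κ * n * HN κ cs τ ℓ) : ℕ) : ℝ) * (5 * Real.log (Real.log ℓ)) ≤
      (CH * (Real.log ℓ) ^ 2) * (5 * Real.log (Real.log ℓ)) := mul_le_mul_of_nonneg_right h3 hll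
    _ = (Real.log ℓ) ^ 2 * (CH * 5 * Real.log (Real.log ℓ)) := by ring
    _ ≤ (Real.log ℓ) ^ 2 * (1 * Real.log ℓ) :=
        mul_le_mul_of_nonneg_left h1 (by positivity)
    _ = _ := by ring

lemma WW_le (ℓ : ℝ) (hL : 1 ≤ Real.log ℓ) (e : ℕ) :
    (WW ℓ e : ℝ) ≤ Real.exp (2 * (Real.log ℓ) ^ 5) := by
  have h1 : WW ℓ e ≤ primorial (ww ℓ) := by
    unfold WW primorial
    apply Finset.prod_le_prod_of_subset_of_one_le'
    · intro p hp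
      have h2 := mem_primesIoc.mp (Finset.mem_of_mem_erase hp)
      rw [Finset.mem_filter, Finset.mem_range]
      exact ⟨by omega, h2.2.2⟩
    · intro p hp _
      exact (Finset.mem_filter.mp hp).2.one_le
  have h2 := primorial_le_four_pow (ww ℓ)
  have hL0 : 0 ≤ Real.log ℓ := by linarith
  calc (WW ℓ e : ℝ) ≤ ((4 ^ ww ℓ : ℕ) : ℝ) := by exact_mod_cast h1.trans h2
    _ = (4 : ℝ) ^ ww ℓ := by push_cast; rfl
    _ ≤ (Real.exp 2) ^ ww ℓ := by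
        apply pow_le_pow_left₀ (by norm_num)
        have h3 : Real.exp 2 = Real.exp 1 * Real.exp 1 := by rw [← Real.exp_add]; norm_num
        have h4 := Real.exp_one_gt_d9
        rw [h3]; nlinarith
    _ = Real.exp ((ww ℓ : ℝ) * 2) := by rw [← Real.exp_nat_mul]
    _ ≤ _ := by
        apply Real.exp_le_exp.mpr
        have := ww_le hL0
        linarith

theorem ev_WW_ge : ∀ᶠ ℓ : ℝ in atTop, ∀ e : ℕ, 2 ≤ WW ℓ e := by
  have h2 := (Real.tendsto_log_atTop).eventually (eventually_ge_atTop (2 : ℝ))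
  filter_upwards [h2] with ℓ h2 e
  have h3 : 5 ≤ ww ℓ := by
    unfold ww
    apply Nat.le_floor
    have : (2 : ℝ) ^ 5 ≤ (Real.log ℓ) ^ 5 := pow_le_pow_left₀ (by norm_num) h2 5
    push_cast
    linarith
  have hmem : ∀ q, q.Prime → q ≤ 5 → q ≠ e → 2 ≤ WW ℓ e := by
    intro q hq hq5 hqe
    have h4 : q ∣ WW ℓ e := by
      unfold WW
      apply Finset.dvd_prod_of_mem
      rw [Finset.mem_erase]
      exact ⟨hqe, mem_primesIoc.mpr ⟨hq.one_lt, by omega, hq⟩⟩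
    have h5 : 0 < WW ℓ e := by
      unfold WW
      apply Finset.prod_pos
      intro p hp
      exact (mem_primesIoc.mp (Finset.mem_of_mem_erase hp)).2.2.pos
    exact hq.two_le.trans (Nat.le_of_dvd h5 h4)
  by_cases he : e = 2
  · exact hmem 3 (by norm_num) (by norm_num) (by omega)
  · exact hmem 2 (by norm_num) (by norm_num) (by omega)

lemma ev_pow_log (n : ℕ) (C c : ℝ) (hc : 0 < c) : ∀ᶠ ℓ : ℝ in atTop, C * (Real.log ℓ) ^ n ≤ c * ℓ := by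
  have h := Pool.Agent.H90.eventually_log_pow_le n (C / c)
  filter_upwards [h] with ℓ h
  calc C * (Real.log ℓ) ^ n = c * (C / c * (Real.log ℓ) ^ n) := by field_simp
    _ ≤ c * ℓ := mul_le_mul_of_nonneg_left h hc.le

theorem ev_YN : ∀ᶠ ℓ : ℝ in atTop, Real.exp (ℓ / 2) ≤ YN ℓ ∧
    Real.exp (ℓ - 2 * (Real.log ℓ) ^ 5 - (Real.log ℓ) ^ 4) / 2 ≤ YN ℓ ∧
    (YN ℓ : ℝ) ≤ Real.exp (ℓ - 2 * (Real.log ℓ) ^ 5 - (Real.log ℓ) ^ 4) := by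
  filter_upwards [ev_pow_log 5 2 (1 / 8) (by norm_num), ev_pow_log 4 1 (1 / 8) (by norm_num),
    eventually_ge_atTop (8 : ℝ)] with ℓ h1 h2 h3
  have h4 : 3 / 4 * ℓ ≤ ℓ - 2 * (Real.log ℓ) ^ 5 - (Real.log ℓ) ^ 4 := by linarith
  set E := Real.exp (ℓ - 2 * (Real.log ℓ) ^ 5 - (Real.log ℓ) ^ 4) with hE
  have h5 : Real.exp (3 / 4 * ℓ) ≤ E := Real.exp_le_exp.mpr h4
  have h6 : Real.exp (ℓ / 2) * 2 ≤ Real.exp (3 / 4 * ℓ) := by
    have h7 : Real.exp (3 / 4 * ℓ) = Real.exp (ℓ / 2) * Real.exp (ℓ / 4) := by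
      rw [← Real.exp_add]; congr 1; ring
    rw [h7]
    apply mul_le_mul_of_nonneg_left _ (Real.exp_pos _).le
    have := Real.add_one_le_exp (ℓ / 4); linarith
  have h8 : 1 ≤ Real.exp (ℓ / 2) := Real.one_le_exp (by linarith)
  have h9 : E - 1 < YN ℓ := by
    unfold YN
    have := Nat.lt_floor_add_one E
    linarith
  refine ⟨by linarith, by linarith, ?_⟩
  unfold YN
  exact Nat.floor_le (Real.exp_pos _).le

theorem ev_count (B κ : ℕ) (c : ℝ) (hc : 0 < c) : ∀ᶠ ℓ : ℝ in atTop,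
    Real.exp (ℓ - (Real.log ℓ) ^ 6) * ℓ ^ (B * κ) ≤
      c * (Real.exp (ℓ - 2 * (Real.log ℓ) ^ 5 - (Real.log ℓ) ^ 4) / 2) := by
  have h2 := (Real.tendsto_log_atTop).eventually
    (eventually_ge_atTop ((4 : ℝ) + (B * κ : ℕ) + |Real.log (2 / c)|))
  filter_upwards [h2, eventually_gt_atTop (0 : ℝ)] with ℓ h2 h3
  set L := Real.log ℓ with hL
  have hN : (0 : ℝ) ≤ ((B * κ : ℕ) : ℝ) := Nat.cast_nonneg _
  have ha := abs_nonneg (Real.log (2 / c))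
  have hL1 : 1 ≤ L := by linarith
  have e1 : ℓ ^ (B * κ) = Real.exp (((B * κ : ℕ) : ℝ) * L) := by
    rw [Real.exp_nat_mul, hL, Real.exp_log h3]
  have e2 : c / 2 = Real.exp (-Real.log (2 / c)) := by
    rw [Real.exp_neg, Real.exp_log (by positivity)]
    rw [inv_div]
  have e3 : c * (Real.exp (ℓ - 2 * L ^ 5 - L ^ 4) / 2) =
      Real.exp (-Real.log (2 / c) + (ℓ - 2 * L ^ 5 - L ^ 4)) := by
    rw [Real.exp_add, ← e2]; ring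
  rw [e1, e3, ← Real.exp_add]
  apply Real.exp_le_exp.mpr
  have h5 := le_abs_self (Real.log (2 / c))
  have hp : ∀ a b : ℕ, a ≤ b → L ^ a ≤ L ^ b := fun a b hab => pow_le_pow_right₀ hL1 hab
  have h6 : L ^ 6 = L * L ^ 5 := by ring
  have h7 : (4 + ((B * κ : ℕ) : ℝ) + |Real.log (2 / c)|) * L ^ 5 ≤ L ^ 6 := by
    rw [h6]
    exact mul_le_mul_of_nonneg_right h2 (by positivity)
  have h8 := hp 4 5 (by norm_num)
  have h9 := hp 1 5 (by norm_num)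
  have h10 := hp 0 5 (by norm_num)
  rw [pow_one] at h9
  rw [pow_zero] at h10
  have h11 : ((B * κ : ℕ) : ℝ) * L ≤ ((B * κ : ℕ) : ℝ) * L ^ 5 := mul_le_mul_of_nonneg_left h9 hN
  have h12 : |Real.log (2 / c)| * 1 ≤ |Real.log (2 / c)| * L ^ 5 := mul_le_mul_of_nonneg_left h10 ha
  nlinarith

/-- the coincidence term tends to `0` -/
theorem ev_coin (t B : ℕ) (ε : ℝ) (hε : 0 < ε) (H : ℝ → ℕ) (hH : ∀ ℓ, 3 ≤ H ℓ) : ∀ᶠ ℓ : ℝ in atTop,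
    (t : ℝ) ^ 2 * (1 / (H ℓ : ℝ) ^ sN ((t * B + 1 : ℕ) : ℝ) ℓ) * ((ℓ ^ B) ^ t + 1) ≤ ε := by
  filter_upwards [eventually_ge_atTop (2 * (t : ℝ) ^ 2 / ε), eventually_ge_atTop (1 : ℝ)]
    with ℓ h1 h2
  have hℓ0 : 0 < ℓ := by linarith
  have hL0 : 0 ≤ Real.log ℓ := Real.log_nonneg h2
  have h3 : ℓ ^ (t * B + 1) ≤ (H ℓ : ℝ) ^ sN ((t * B + 1 : ℕ) : ℝ) ℓ := by
    have h4 : (3 : ℝ) ≤ H ℓ := by exact_mod_cast hH ℓ
    have h5 : Real.exp 1 ≤ 3 := by have := Real.exp_one_lt_d9; linarith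
    calc ℓ ^ (t * B + 1) = Real.exp (((t * B + 1 : ℕ) : ℝ) * Real.log ℓ) := by
          rw [Real.exp_nat_mul, Real.exp_log hℓ0]
      _ ≤ Real.exp ((sN ((t * B + 1 : ℕ) : ℝ) ℓ : ℝ) * 1) := by
          apply Real.exp_le_exp.mpr
          rw [mul_one]
          unfold sN
          exact Nat.le_ceil _
      _ = (Real.exp 1) ^ sN ((t * B + 1 : ℕ) : ℝ) ℓ := by rw [Real.exp_nat_mul]
      _ ≤ _ := pow_le_pow_left₀ (Real.exp_pos _).le (h5.trans h4) _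
  have h6 : 1 / (H ℓ : ℝ) ^ sN ((t * B + 1 : ℕ) : ℝ) ℓ ≤ 1 / ℓ ^ (t * B + 1) :=
    one_div_le_one_div_of_le (by positivity) h3
  have h7 : (ℓ ^ B) ^ t + 1 ≤ 2 * ℓ ^ (t * B) := by
    rw [← pow_mul, mul_comm B t]
    have : (1 : ℝ) ≤ ℓ ^ (t * B) := one_le_pow₀ h2
    linarith
  calc (t : ℝ) ^ 2 * (1 / (H ℓ : ℝ) ^ sN ((t * B + 1 : ℕ) : ℝ) ℓ) * ((ℓ ^ B) ^ t + 1) ≤
      (t : ℝ) ^ 2 * (1 / ℓ ^ (t * B + 1)) * (2 * ℓ ^ (t * B)) := by gcongr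
    _ = 2 * (t : ℝ) ^ 2 / ℓ := by field_simp; ring
    _ ≤ ε := by
        rw [div_le_iff₀ hℓ0]
        rw [div_le_iff₀ hε] at h1
        linarith

end Pool.Agent.H16.GPS
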