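import Pool.Agent.H16.GPS.Fin1
import Pool.Agent.H16.GPS.Fin2
import Pool.Agent.H16.GPS.Num.Corr
import Pool.Agent.H16.GPS.Num.NuBound
import Pool.Agent.H16.GPS.Num.FleNu
import Pool.Agent.H16.GPS.Num.Mean
import Pool.Agent.H16.GPS.Num.Gens

/-!
GPS: final assembly.
-/

set_option autoImplicit false

open Finset Filter

namespace Pool.Agent.H16.GPS

open Pool.Agent.H16

lemma sh_bounds (σ : Bool) (N : ℕ) (hN : 2 ≤ N) : 1 ≤ sh σ N ∧ sh σ N ≤ N + 1 := by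
  unfold sh
  cases σ <;> simp <;> omega

/-- the majorant on `Θ × Γ` -/
noncomputable def nuG {s V : ℕ} (K : ℕ) (η ℓ : ℝ) (e Y : ℕ) (σ : Bool) (gen : Fin s → ℕ) :
    Fin Y × (Fin s → ZMod V) → ℝ :=
  fun p => nuN K η ℓ e (sh σ (WW ℓ e * mx gen p.2 * ((p.1 : ℕ) + 1)))

/-- the weight of the primes on `Θ × Γ`, cut off near the boundary -/
noncomputable def fG {s V : ℕ} (c₀ η ℓ : ℝ) (e Y Q : ℕ) (σ : Bool) (gen : Fin s → ℕ) :
    Fin Y × (Fin s → ZMod V) → ℝ := by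
  classical exact
  fun p => if ∃ i, V ≤ (p.2 i).val + Q then 0 else
    c₀ * (((WW ℓ e).totient : ℝ) / (WW ℓ e : ℝ) *
      aw (Real.log ((WW ℓ e * mx gen p.2 * Y : ℕ) : ℝ)) (RR η ℓ)
        (sh σ (WW ℓ e * mx gen p.2 * ((p.1 : ℕ) + 1))))

lemma sum_fin_Icc (Y : ℕ) (F : ℕ → ℝ) : ∑ A : Fin Y, F ((A : ℕ) + 1) = ∑ A ∈ Icc 1 Y, F A := by
  rw [Fin.sum_univ_eq_sum_range (fun n => F (n + 1)) Y]
  rw [Finset.range_eq_Ico, Finset.sum_Ico_add' F 0 Y 1]
  apply Finset.sum_congr _ (fun _ _ => rfl)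
  ext a
  simp only [Finset.mem_Ico, Finset.mem_Icc]
  omega

/-- correlations on the grid -/
lemma corr_grid {s V : ℕ} [NeZero V] (K : ℕ) (η ℓ ε : ℝ) (e Y t : ℕ) (σ : Bool)
    (gen : Fin s → ℕ) (hg : ∀ i, (gen i).Prime) (hi : Function.Injective gen)
    (hcorr : ∀ ℳ : Finset ℕ, #ℳ ≤ t →
      (∀ m ∈ ℳ, 0 < m ∧ (m : ℝ) ≤ Real.exp ((Real.log ℓ) ^ 4) ∧ ∀ p, p.Prime → p ∣ m → p ≤ ww ℓ) →
      |(∑ A ∈ Icc 1 Y, ∏ m ∈ ℳ, nuN K η ℓ e (sh σ (WW ℓ e * m * A))) / (Y : ℝ) - 1| ≤ ε)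
    (hgw : ∀ i, gen i ≤ ww ℓ)
    (hm : ∀ x : Fin s → ZMod V, (mx gen x : ℝ) ≤ Real.exp ((Real.log ℓ) ^ 4))
    (S : Finset (Fin s → ZMod V)) (hS : #S ≤ t) :
    |(∑ A : Fin Y, ∏ x ∈ S, nuG K η ℓ e Y σ gen (A, x)) / (Fintype.card (Fin Y) : ℝ) - 1| ≤ ε := by
  classical
  have hinj := mx_inj (V := V) gen hg hi
  have h1 := hcorr (S.image (mx gen)) ((Finset.card_image_le).trans hS) (by
    intro m hm'
    obtain ⟨x, -, rfl⟩ := Finset.mem_image.mp hm'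
    refine ⟨mx_pos gen hg x, hm x, fun p hp hpd => ?_⟩
    obtain ⟨i, hi'⟩ := mx_prime gen hg x p hp hpd
    rw [hi']; exact hgw i)
  rw [Fintype.card_fin]
  have h2 : ∑ A : Fin Y, ∏ x ∈ S, nuG K η ℓ e Y σ gen (A, x) =
      ∑ A ∈ Icc 1 Y, ∏ m ∈ S.image (mx gen), nuN K η ℓ e (sh σ (WW ℓ e * m * A)) := by
    rw [← sum_fin_Icc]
    apply Finset.sum_congr rfl
    intro A _
    rw [Finset.prod_image (fun a _ b _ hab => hinj hab)]
    rfl
  rw [h2]
  exact h1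

theorem gp_main (κ : ℕ) (hκ : 2 ≤ κ) (σ : Bool) : ∀ᶠ ℓ : ℝ in atTop, ∃ r : ℕ, 2 ≤ r ∧
    (r : ℝ) ≤ Real.exp ((Real.log ℓ) ^ 3) ∧
    Real.exp (ℓ - (Real.log ℓ) ^ 6) ≤
      (#((Icc 1 ⌊Real.exp ℓ⌋₊).filter (fun a => ∀ j : ℕ, j < κ → (sh σ (a * r ^ j)).Prime)) : ℝ) := by
  classical
  -- constants
  set t : ℕ := κ * 2 ^ κ with ht
  set η : ℝ := 1 / (8 * t + 8) with hη
  have ht0 : (0 : ℝ) ≤ t := Nat.cast_nonneg _
  have hη0 : 0 < η := by positivity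
  have hη8 : η * (8 * t + 8) ≤ 1 := by
    rw [hη]; rw [one_div, inv_mul_cancel₀ (by positivity)]
  have hη1 : η ≤ 1 / 8 := by
    rw [hη]; apply one_div_le_one_div_of_le (by norm_num); linarith
  set K : ℕ := 16 * t + 1 with hK
  obtain ⟨cm, hcm, hmean⟩ := mean_prime η hη0 (by linarith)
  obtain ⟨c₀, hc₀, hfle⟩ := f_le_nu K η hη0 (by linarith)
  obtain ⟨B, hB⟩ := nu_bound K η hη0 (by linarith)
  set δ : ℝ := c₀ * cm / 2 with hδ
  have hδ0 : 0 < δ := by positivity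
  obtain ⟨n, hn, c₁, hc₁, hdense⟩ := dense_prop κ (by omega) (dhj κ (by omega)) (δ / 2) (by positivity)
  obtain ⟨ηR, hηR, τ, hτ, hrel⟩ := rel_main κ hκ δ c₁ hδ0 hc₁
  set cs : ℝ := ((t * B + 1 : ℕ) : ℝ) with hcs
  have hcs0 : 0 ≤ cs := Nat.cast_nonneg _
  have hcorr := corr t η hη0 hη8 K le_rfl (ηR / 2) (by positivity)
  have hcoin1 := ev_coin t B (ηR / 2) (by positivity) (fun ℓ => HN κ cs τ ℓ)
    (fun ℓ => by show 3 ≤ ⌈_⌉₊ + 3; omega)
  have hcoin2 := ev_coin t B (ηR / 2) (by positivity) (fun _ => 3) (fun ℓ => le_rfl)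
  filter_upwards [hmean, hfle, hB, hcorr, hcoin1, hcoin2, exists_gens cs, ev_mx κ n cs τ hcs0 hτ,
    ev_r κ n cs τ hcs0 hτ, ev_WW_ge, ev_YN, ev_count B κ (c₁ / 2) (by positivity),
    (Real.tendsto_log_atTop).eventually (eventually_ge_atTop (1 : ℝ)), eventually_ge_atTop (2 : ℝ)]
    with ℓ hmean hfle hB hcorr hcoin1 hcoin2 hgens hmx hr hWW hY hcount hL hℓ2
  obtain ⟨e, hep, hmean⟩ := hmean
  obtain ⟨hY1, hY2, hY3⟩ := hY
  set s : ℕ := sN cs ℓ with hs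
  set H : ℕ := HN κ cs τ ℓ with hH
  set Q : ℕ := QN κ n cs τ ℓ with hQ
  set V : ℕ := VN κ n cs τ ℓ with hV
  set Y : ℕ := YN ℓ with hYd
  set Wd : ℕ := WW ℓ e with hWd
  obtain ⟨gen, hginj, hgen⟩ : ∃ gen : Fin s → ℕ, Function.Injective gen ∧
      ∀ i, (gen i).Prime ∧ gen i ≤ ww ℓ ∧ gen i ≠ e := hgens e
  have hVeq : V = κ.factorial * (2 * s * Q) + 1 := rfl
  have hQeq : Q = κ * (κ * n * H) := rfl
  have hNZ : NeZero V := ⟨by omega⟩
  have hℓ0 : 0 < ℓ := by linarith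
  have hH3 : 3 ≤ H := by rw [hH]; show 3 ≤ ⌈_⌉₊ + 3; omega
  have hs1 : 1 ≤ s := by
    rw [hs]; unfold sN
    rw [Nat.one_le_ceil_iff]
    have : (1 : ℝ) ≤ cs := by rw [hcs]; exact_mod_cast Nat.le_add_left 1 _
    nlinarith
  have hfac : 1 ≤ κ.factorial := Nat.factorial_pos κ
  have hHQ : H ≤ Q := by
    rw [hQeq]
    calc H = 1 * (1 * 1 * H) := by ring
      _ ≤ κ * (κ * n * H) := by gcongr <;> omega
  have hQV : 2 * s * Q ≤ V := by
    rw [hVeq]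
    calc 2 * s * Q = 1 * (2 * s * Q) := by ring
      _ ≤ κ.factorial * (2 * s * Q) := Nat.mul_le_mul_right _ hfac
      _ ≤ _ := Nat.le_succ _
  have hQV2 : Q ≤ V := by
    refine le_trans ?_ hQV
    calc Q = 1 * 1 * Q := by ring
      _ ≤ 2 * s * Q := by gcongr <;> omega
  have hHV : H ≤ V := hHQ.trans hQV2
  have h3V : 3 ≤ V := hH3.trans hHV
  -- the multipliers
  have hgp : ∀ i, (gen i).Prime := fun i => (hgen i).1
  have hgw : ∀ i, gen i ≤ ww ℓ := fun i => (hgen i).2.1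
  have hww1 : 1 ≤ ww ℓ := (hgp ⟨0, hs1⟩).one_le.trans (hgw ⟨0, hs1⟩)
  have hmxle : ∀ x : Fin s → ZMod V, (mx gen x : ℝ) ≤ Real.exp ((Real.log ℓ) ^ 4) := by
    intro x
    have h1 := mx_le gen (ww ℓ) hww1 hgw x
    have h2 : (mx gen x : ℝ) ≤ (ww ℓ : ℝ) ^ (V * s) := by exact_mod_cast h1
    exact h2.trans hmx
  have hmxpos : ∀ x : Fin s → ZMod V, 0 < mx gen x := fun x => mx_pos gen hgp x
  have hW2 : 2 ≤ Wd := hWW e
  have hWle : (Wd : ℝ) ≤ Real.exp (2 * (Real.log ℓ) ^ 5) := WW_le ℓ hL e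
  have hWmY : ∀ x : Fin s → ZMod V, ((Wd * mx gen x * Y : ℕ) : ℝ) ≤ Real.exp ℓ := by
    intro x
    push_cast
    calc (Wd : ℝ) * (mx gen x : ℝ) * (Y : ℝ) ≤ Real.exp (2 * (Real.log ℓ) ^ 5) *
        Real.exp ((Real.log ℓ) ^ 4) * Real.exp (ℓ - 2 * (Real.log ℓ) ^ 5 - (Real.log ℓ) ^ 4) := by
          gcongr
          exact hmxle x
      _ = Real.exp ℓ := by rw [← Real.exp_add, ← Real.exp_add]; congr 1; ring
  have hYpos : 0 < Y := by
    have : (0 : ℝ) < Y := (Real.exp_pos _).trans_le hY1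
    exact_mod_cast this
  have : Nonempty (Fin Y) := ⟨⟨0, hYpos⟩⟩
  have hNZe : Real.exp ℓ + 1 ≤ Real.exp (2 * ℓ) := by
    have h1 : Real.exp (2 * ℓ) = Real.exp ℓ * Real.exp ℓ := by rw [← Real.exp_add]; congr 1; ring
    have h2 := Real.add_one_le_exp ℓ
    rw [h1]; nlinarith
  have hn2 : ∀ (x : Fin s → ZMod V) (A : Fin Y), 2 ≤ Wd * mx gen x * ((A : ℕ) + 1) ∧
      ((Wd * mx gen x * ((A : ℕ) + 1) : ℕ) : ℝ) ≤ Real.exp ℓ := by
    intro x A
    constructor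
    · calc 2 = 2 * 1 * 1 := by ring
        _ ≤ Wd * mx gen x * ((A : ℕ) + 1) := by
          apply Nat.mul_le_mul (Nat.mul_le_mul hW2 (hmxpos x)) (by omega)
    · refine le_trans ?_ (hWmY x)
      exact_mod_cast Nat.mul_le_mul_left _ A.2
  have hnn : ∀ (x : Fin s → ZMod V) (A : Fin Y),
      1 ≤ sh σ (Wd * mx gen x * ((A : ℕ) + 1)) ∧
      ((sh σ (Wd * mx gen x * ((A : ℕ) + 1)) : ℕ) : ℝ) ≤ Real.exp (2 * ℓ) := by
    intro x A
    obtain ⟨h1, h2⟩ := hn2 x A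
    obtain ⟨h3, h4⟩ := sh_bounds σ _ h1
    refine ⟨h3, ?_⟩
    have h5 : ((sh σ (Wd * mx gen x * ((A : ℕ) + 1)) : ℕ) : ℝ) ≤
        ((Wd * mx gen x * ((A : ℕ) + 1) : ℕ) : ℝ) + 1 := by exact_mod_cast h4
    linarith
  -- the functions
  set ν : Fin Y × (Fin s → ZMod V) → ℝ := nuG K η ℓ e Y σ gen with hν
  set f : Fin Y × (Fin s → ZMod V) → ℝ := fG c₀ η ℓ e Y Q σ gen with hf
  have hν0 : ∀ p, 0 ≤ ν p := fun p => nu_nonneg _ _ _ _ _
  have hνB : ∀ p, ν p ≤ ℓ ^ B := fun p => hB e _ (hnn p.2 p.1).1 (hnn p.2 p.1).2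
  have hfν : ∀ p, 0 ≤ f p ∧ f p ≤ ν p := by
    intro p
    rw [hf, hν]
    unfold fG nuG
    split_ifs with hcase
    · exact ⟨le_rfl, nu_nonneg _ _ _ _ _⟩
    · exact ⟨by
        apply mul_nonneg hc₀.le
        apply mul_nonneg (by positivity) (aw_nonneg _ _ _),
        hfle e _ _ (hnn p.2 p.1).2⟩
  have hBd : (1 : ℝ) ≤ ℓ ^ B := one_le_pow₀ (by linarith)
  -- laws
  have hne1 : Nonempty (Fin s → Fin H) := ⟨fun _ => ⟨0, by omega⟩⟩
  have hne3 : Nonempty (Fin s → Fin 3) := ⟨fun _ => 0⟩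
  have hl : IsPW (lawN n (bx s H V)) := lawN_isPW n hn _
  have hl' : IsPW (lawU (bx s 3 V)) := lawU_isPW _
  have hat : ∀ g, lawN n (bx s H V) g ≤ 1 / (H : ℝ) ^ s :=
    lawN_atom n hn _ _ (box_atom s H V (by omega) hHV)
  have hat' : ∀ g, lawU (bx s 3 V) g ≤ 1 / (3 : ℝ) ^ s := by
    intro g
    have := box_atom s 3 V (by norm_num) h3V g
    simpa using this
  have hcg := corr_grid (V := V) K η ℓ (ηR / 2) e Y t σ gen hgp hginj (hcorr e Y hY1 σ) hgw hmxle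
  have hLF : LFnu κ (lawN n (bx s H V)) ν ηR := by
    have h1 := lf_of_corr κ hκ (lawN n (bx s H V)) hl (1 / (H : ℝ) ^ s) hat
      (fun c hc hc1 => smul_inj κ s (2 * s * Q) V hVeq c hc (Or.inl hc1)) ν (ℓ ^ B) hBd
      (fun p => ⟨hν0 p, hνB p⟩) (ηR / 2) (by positivity) hcg
    intro S hS
    refine (h1 S hS).trans ?_
    have h2 : ((t : ℕ) : ℝ) ^ 2 * (1 / (H : ℝ) ^ s) * ((ℓ ^ B) ^ t + 1) ≤ ηR / 2 := hcoin1
    rw [← ht]
    linarith
  have hLFd : LFd κ (lawU (bx s 3 V)) ν ηR := by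
    have hfi : Function.Injective (fun g : Fin s → ZMod V => κ.factorial • g) := by
      have h1 := smul_inj κ s (2 * s * Q) V hVeq (κ.factorial : ℤ)
        (by exact_mod_cast (Nat.factorial_pos κ).ne') (Or.inr rfl)
      intro a b hab
      apply h1
      simp only at hab ⊢
      rw [natCast_zsmul, natCast_zsmul]
      exact hab
    have h1 := lfd_of_corr κ hκ (lawU (bx s 3 V)) hl' (1 / (3 : ℝ) ^ s) hat' hfi ν (ℓ ^ B) hBd
      (fun p => ⟨hν0 p, hνB p⟩) (ηR / 2) (by positivity) hcg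
    intro S
    refine (h1 S).trans ?_
    have h2 : ((t : ℕ) : ℝ) ^ 2 * (1 / ((3 : ℕ) : ℝ) ^ s) * ((ℓ ^ B) ^ t + 1) ≤ ηR / 2 := hcoin2
    rw [← ht]
    push_cast at h2
    linarith
  have hNI : NearInv κ (lawN n (bx s H V)) (lawU (bx s 3 V)) τ := by
    apply nearInv_box κ s H V n (by omega) hn τ
    have hH0 : (0 : ℝ) < H := by exact_mod_cast (by omega : 0 < H)
    rw [div_le_iff₀ hH0, mul_comm τ, ← div_le_iff₀ hτ]
    have h1 : (2 * (s : ℝ) * ((3 * κ.factorial : ℕ) : ℝ) / τ) ≤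
        (⌈2 * (sN cs ℓ : ℝ) * ((3 * κ.factorial : ℕ) : ℝ) / τ⌉₊ : ℝ) := Nat.le_ceil _
    have h2 : (H : ℝ) = (⌈2 * (sN cs ℓ : ℝ) * ((3 * κ.factorial : ℕ) : ℝ) / τ⌉₊ : ℝ) + 3 := by
      rw [hH]; unfold HN; push_cast; rfl
    rw [h2]
    linarith
  -- mean value
  have hmeanx : ∀ x : Fin s → ZMod V, (¬ ∃ i, V ≤ (x i).val + Q) →
      c₀ * cm * (Y : ℝ) ≤ ∑ A : Fin Y, f (A, x) := by
    intro x hx
    have h1 := hmean Y (mx gen x) hY1 (hmxpos x) (hWmY x) (hmxle x) (by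
      intro p hp hpd
      obtain ⟨i, hi⟩ := mx_prime gen hgp x p hp hpd
      rw [hi]; exact (hgen i).2) σ
    have h2 : ∑ A : Fin Y, f (A, x) = c₀ * ∑ A ∈ Icc 1 Y, ((WW ℓ e).totient : ℝ) / (WW ℓ e : ℝ) *
        aw (Real.log ((WW ℓ e * mx gen x * Y : ℕ) : ℝ)) (RR η ℓ) (sh σ (WW ℓ e * mx gen x * A)) := by
      rw [← sum_fin_Icc, Finset.mul_sum]
      apply Finset.sum_congr rfl
      intro A _
      rw [hf]
      unfold fG
      simp only
      rw [if_neg hx]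
    rw [h2, mul_assoc]
    exact mul_le_mul_of_nonneg_left h1 hc₀.le
  have hcardG : (0 : ℝ) < (Fintype.card (Fin s → ZMod V) : ℝ) := by
    exact_mod_cast Fintype.card_pos
  have hYr : (0 : ℝ) < Y := by exact_mod_cast hYpos
  have hmf : δ ≤ ∑ p, unif (Fin Y × (Fin s → ZMod V)) p * f p := by
    have h1 := interior_frac s V Q
    have h2 : ((s : ℝ) * Q / V) ≤ 1 / 2 := by
      have hVr : (0 : ℝ) < V := by exact_mod_cast (by omega : 0 < V)
      rw [div_le_iff₀ hVr]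
      have h3 : ((2 * s * Q : ℕ) : ℝ) ≤ V := by exact_mod_cast hQV
      push_cast at h3
      linarith
    have h3 : (#(univ.filter (fun x : Fin s → ZMod V => ∃ i, V ≤ (x i).val + Q)) : ℝ) ≤
        1 / 2 * (Fintype.card (Fin s → ZMod V) : ℝ) :=
      h1.trans (mul_le_mul_of_nonneg_right h2 hcardG.le)
    have h4 : (Fintype.card (Fin s → ZMod V) : ℝ) / 2 ≤
        (#(univ.filter (fun x : Fin s → ZMod V => ¬ ∃ i, V ≤ (x i).val + Q)) : ℝ) := by
      have h5 := Finset.card_filter_add_card_filter_not (s := (univ : Finset (Fin s → ZMod V)))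
        (fun x : Fin s → ZMod V => ∃ i, V ≤ (x i).val + Q)
      rw [Finset.card_univ] at h5
      have h6 : ((#(univ.filter (fun x : Fin s → ZMod V => ∃ i, V ≤ (x i).val + Q)) : ℕ) : ℝ) +
        (#(univ.filter (fun x : Fin s → ZMod V => ¬ ∃ i, V ≤ (x i).val + Q)) : ℝ) =
        (Fintype.card (Fin s → ZMod V) : ℝ) := by exact_mod_cast h5
      linarith
    have h7 : ∑ p, unif (Fin Y × (Fin s → ZMod V)) p * f p =
        (∑ x : Fin s → ZMod V, ∑ A : Fin Y, f (A, x)) /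
          ((Y : ℝ) * (Fintype.card (Fin s → ZMod V) : ℝ)) := by
      unfold unif
      rw [← Finset.mul_sum, Fintype.sum_prod_type, Finset.sum_comm, Fintype.card_prod,
        Fintype.card_fin]
      push_cast
      ring
    rw [h7, le_div_iff₀ (by positivity)]
    calc δ * ((Y : ℝ) * (Fintype.card (Fin s → ZMod V) : ℝ)) =
        (Fintype.card (Fin s → ZMod V) : ℝ) / 2 * (c₀ * cm * Y) := by rw [hδ]; ring
      _ ≤ (#(univ.filter (fun x : Fin s → ZMod V => ¬ ∃ i, V ≤ (x i).val + Q)) : ℝ) *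
          (c₀ * cm * Y) := mul_le_mul_of_nonneg_right h4 (by positivity)
      _ = ∑ x ∈ univ.filter (fun x : Fin s → ZMod V => ¬ ∃ i, V ≤ (x i).val + Q), c₀ * cm * Y := by
          rw [Finset.sum_const, nsmul_eq_mul]
      _ ≤ ∑ x ∈ univ.filter (fun x : Fin s → ZMod V => ¬ ∃ i, V ≤ (x i).val + Q),
          ∑ A : Fin Y, f (A, x) := by
          apply Finset.sum_le_sum
          intro x hx
          exact hmeanx x (Finset.mem_filter.mp hx).2
      _ ≤ ∑ x : Fin s → ZMod V, ∑ A : Fin Y, f (A, x) := by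
          apply Finset.sum_le_sum_of_subset_of_nonneg (Finset.filter_subset _ _)
          intro x _ _
          exact Finset.sum_nonneg (fun A _ => (hfν _).1)
  -- relative theorem
  have hLam := hrel (Fin Y) (Fin s → ZMod V) (lawN n (bx s H V)) (lawU (bx s 3 V)) hl hl' ν f hLF hLFd
    hNI (fun g hg hg2 => hdense (Fin Y) (Fin s → ZMod V) (Fin s → Fin H) (bx s H V) g hg hg2) hfν hmf
  obtain ⟨x, d, hd, hxd⟩ := exists_good κ (lawN n (bx s H V)) hl f (c₁ / 2) hLam (by positivity)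
  rw [Fintype.card_fin] at hxd
  obtain ⟨D, hD, hLL⟩ := directions κ n s H V (by omega) d hd
  set r : ℕ := ∏ i, gen i ^ D i with hrd
  set x' : Fin s → ZMod V := x + LL ⟨0, by omega⟩ d with hx'
  -- the good A
  set GA : Finset (Fin Y) := univ.filter (fun A => ∀ j : Fin κ, f (A, x + LL j d) ≠ 0) with hGA
  have hGAcard : c₁ / 2 * (Y : ℝ) ≤ (#GA : ℝ) * ℓ ^ (B * κ) := by
    refine hxd.trans ?_
    rw [← Finset.sum_filter_add_sum_filter_not univ (fun A : Fin Y => ∀ j : Fin κ, f (A, x + LL j d) ≠ 0)]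
    have h1 : ∑ A ∈ univ.filter (fun A : Fin Y => ¬ ∀ j : Fin κ, f (A, x + LL j d) ≠ 0),
        ∏ j : Fin κ, f (A, x + LL j d) = 0 := by
      apply Finset.sum_eq_zero
      intro A hA
      have h2 := (Finset.mem_filter.mp hA).2
      push Not at h2
      obtain ⟨j, hj⟩ := h2
      exact Finset.prod_eq_zero (Finset.mem_univ j) hj
    rw [h1, add_zero]
    calc ∑ A ∈ GA, ∏ j : Fin κ, f (A, x + LL j d) ≤ ∑ A ∈ GA, ∏ _j : Fin κ, ℓ ^ B := by
          apply Finset.sum_le_sum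
          intro A _
          apply Finset.prod_le_prod (fun j _ => (hfν _).1)
          intro j _
          exact (hfν _).2.trans (hνB _)
      _ = (#GA : ℝ) * ℓ ^ (B * κ) := by
          rw [Finset.sum_const, nsmul_eq_mul, Finset.prod_const, Finset.card_univ, Fintype.card_fin,
            ← pow_mul]
  have hGAge : Real.exp (ℓ - (Real.log ℓ) ^ 6) ≤ (#GA : ℝ) := by
    have h1 : Real.exp (ℓ - (Real.log ℓ) ^ 6) * ℓ ^ (B * κ) ≤ (#GA : ℝ) * ℓ ^ (B * κ) := by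
      refine hcount.trans (le_trans ?_ hGAcard)
      exact mul_le_mul_of_nonneg_left hY2 (by positivity)
    exact le_of_mul_le_mul_right h1 (by positivity)
  -- consequences of f ≠ 0
  have hkey : ∀ A ∈ GA, ∀ j : ℕ, j < κ →
      (sh σ (Wd * mx gen x' * ((A : ℕ) + 1) * r ^ j)).Prime := by
    intro A hA j hj
    have hA2 := (Finset.mem_filter.mp hA).2
    have h0 := hA2 ⟨0, by omega⟩
    have hint : ¬ ∃ i, V ≤ (x' i).val + Q := by
      intro hcon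
      apply h0
      rw [hf]
      unfold fG
      simp only
      rw [if_pos hcon]
    push Not at hint
    have hj' := hA2 ⟨j, hj⟩
    have hxj : x + LL ⟨j, hj⟩ d = x' + fun p => ((j * D p : ℕ) : ZMod V) := by
      rw [hLL ⟨j, hj⟩, hx', add_assoc]
    have hmxj : mx gen (x + LL ⟨j, hj⟩ d) = mx gen x' * r ^ j := by
      rw [hxj, mx_add gen x' (fun p => j * D p) (fun i => ?_)]
      · congr 1
        rw [hrd, ← Finset.prod_pow]
        apply Finset.prod_congr rfl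
        intro i _
        rw [← pow_mul, mul_comm j]
      · have h1 := hint i
        have h2 := (hD i).2
        have h3 : j * D i ≤ Q := by
          rw [hQeq]
          exact Nat.mul_le_mul hj.le h2
        omega
    have haw : aw (Real.log ((WW ℓ e * mx gen (x + LL ⟨j, hj⟩ d) * Y : ℕ) : ℝ)) (RR η ℓ)
        (sh σ (WW ℓ e * mx gen (x + LL ⟨j, hj⟩ d) * ((A : ℕ) + 1))) ≠ 0 := by
      intro hcon
      apply hj'
      rw [hf]
      unfold fG
      simp only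
      split_ifs
      · rfl
      · rw [hcon]; simp
    have hpr := (aw_ne_zero haw).1
    rw [hmxj] at hpr
    have h5 : WW ℓ e * (mx gen x' * r ^ j) * ((A : ℕ) + 1) =
        Wd * mx gen x' * ((A : ℕ) + 1) * r ^ j := by rw [hWd]; ring
    rw [h5] at hpr
    exact hpr
  refine ⟨r, ?_, ?_, ?_⟩
  · -- 2 ≤ r
    have h1 : gen ⟨0, hs1⟩ ∣ r := by
      rw [hrd]
      refine dvd_trans ?_ (Finset.dvd_prod_of_mem (fun i => gen i ^ D i) (Finset.mem_univ ⟨0, hs1⟩))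
      exact dvd_pow_self _ (by have := (hD ⟨0, hs1⟩).1; omega)
    have h2 : 0 < r := Finset.prod_pos (fun i _ => pow_pos (hgp i).pos _)
    exact (hgp _).two_le.trans (Nat.le_of_dvd h2 h1)
  · refine le_trans ?_ hr
    have h1 : r ≤ (ww ℓ) ^ (s * (κ * n * H)) := by
      calc r ≤ ∏ _i : Fin s, (ww ℓ) ^ (κ * n * H) := by
            apply Finset.prod_le_prod' 
            intro i _
            calc gen i ^ D i ≤ (ww ℓ) ^ D i := Nat.pow_le_pow_left (hgw i) _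
              _ ≤ (ww ℓ) ^ (κ * n * H) := Nat.pow_le_pow_right hww1 (hD i).2
        _ = (ww ℓ) ^ (s * (κ * n * H)) := by
            rw [Finset.prod_const, Finset.card_univ, Fintype.card_fin, ← pow_mul]
            congr 1; ring
    exact_mod_cast h1
  · refine hGAge.trans ?_
    have hinj : Function.Injective (fun A : Fin Y => Wd * mx gen x' * ((A : ℕ) + 1)) := by
      intro A A' hAA
      simp only at hAA
      have h1 : 0 < Wd * mx gen x' := Nat.mul_pos (by omega) (hmxpos x')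
      have h2 := Nat.eq_of_mul_eq_mul_left h1 hAA
      apply Fin.ext
      omega
    have h1 : #GA = #(GA.image (fun A : Fin Y => Wd * mx gen x' * ((A : ℕ) + 1))) :=
      (Finset.card_image_of_injective _ hinj).symm
    rw [h1]
    have h2 : GA.image (fun A : Fin Y => Wd * mx gen x' * ((A : ℕ) + 1)) ⊆
        (Icc 1 ⌊Real.exp ℓ⌋₊).filter (fun a => ∀ j : ℕ, j < κ → (sh σ (a * r ^ j)).Prime) := by
      intro a ha
      obtain ⟨A, hA, rfl⟩ := Finset.mem_image.mp ha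
      rw [Finset.mem_filter, Finset.mem_Icc]
      refine ⟨⟨?_, ?_⟩, hkey A hA⟩
      · have := (hn2 x' A).1; omega
      · exact Nat.le_floor (hn2 x' A).2
    exact_mod_cast Finset.card_le_card h2

end Pool.Agent.H16.GPS
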