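import Pool.Agent.H16.GPS.HJ.Main
import Pool.Agent.H16.GPS.HJ.Dense
import Pool.Agent.H16.GPS.Rel.Main
import Pool.Agent.H16.GPS.Rel.Laws
import Pool.Agent.H16.GPS.Rel.Coin
import Pool.Agent.H16.GPS.Rel.Coin2
import Pool.Agent.H16.GPS.Num.Box
import Pool.Agent.H16.GPS.Num.Mult

/-!
GPS: auxiliary lemmas for the final assembly (directions, extraction).
-/

set_option autoImplicit false

open Finset

namespace Pool.Agent.H16.GPS

/-- elements of the support of `lawU (bx s H V)` -/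
lemma lawU_support {Ξ Γ : Type} [Fintype Ξ] (b : Ξ → Γ) (g : Γ) (h : lawU b g ≠ 0) :
    ∃ ξ, b ξ = g := by
  classical
  unfold lawU at h
  by_contra hcon
  push Not at hcon
  apply h
  have : (univ.filter (fun ξ => b ξ = g)) = ∅ := by
    ext ξ; simp [hcon ξ]
  rw [this]; simp

theorem nearInv_box (κ s H V n : ℕ) [NeZero V] (hH : 1 ≤ H) (hn : 1 ≤ n) (τ : ℝ)
    (hτ : 2 * (s : ℝ) * ((3 * κ.factorial : ℕ) : ℝ) / H ≤ τ) :
    NearInv κ (lawN n (bx s H V)) (lawU (bx s 3 V)) τ := by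
  intro y hy c hc
  obtain ⟨ξ, hξ⟩ := lawU_support _ _ hy
  have : Nonempty (Fin s → Fin H) := ⟨fun _ => ⟨0, hH⟩⟩
  apply lawN_shift n hn
  have h1 : c • y = fun i => (((c * (((ξ i : ℕ) + 1 : ℕ) : ℤ)) : ℤ) : ZMod V) := by
    rw [← hξ]
    funext i
    simp [bx]
    ring
  rw [h1]
  refine (box_shift s H V hH (3 * κ.factorial) (fun i => c * (((ξ i : ℕ) + 1 : ℕ) : ℤ)) ?_).trans hτ
  intro i
  rw [abs_mul]
  have h2 : |((((ξ i : ℕ) + 1 : ℕ) : ℤ))| ≤ 3 := by
    have h3 := (ξ i).2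
    rw [abs_of_nonneg (by positivity)]
    omega
  have h3 : (0 : ℤ) ≤ |c| := abs_nonneg _
  push_cast
  push_cast at h2
  nlinarith

/-- pigeonhole: a good base point and a good direction -/
theorem exists_good {Θ Γ : Type} [Fintype Θ] [Nonempty Θ] [Fintype Γ] [AddCommGroup Γ] (κ : ℕ)
    (lam : Γ → ℝ) (hl : IsPW lam) (f : Θ × Γ → ℝ) (c : ℝ) (h : c ≤ Lam κ lam f) (hc : 0 < c) :
    ∃ (x : Γ) (d : Fin κ → Γ), (∀ i, lam (d i) ≠ 0) ∧
      c * (Fintype.card Θ : ℝ) ≤ ∑ A : Θ, ∏ j : Fin κ, f (A, x + LL j d) := by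
  classical
  by_contra hcon
  push Not at hcon
  have hΘ : (0 : ℝ) < (Fintype.card Θ : ℝ) := by exact_mod_cast Fintype.card_pos
  have : Nonempty Γ := ⟨0⟩
  have hΓ : (0 : ℝ) < (Fintype.card Γ : ℝ) := by exact_mod_cast Fintype.card_pos
  have hw : ∀ d : Fin κ → Γ, 0 ≤ ∏ i, lam (d i) := fun d => Finset.prod_nonneg (fun i _ => hl.1 _)
  have hsum := sum_pi_weight (ι := Fin κ) lam hl
  have h1 : Lam κ lam f = ∑ x : Γ, ∑ d : Fin κ → Γ, (∏ i, lam (d i)) *
      ((∑ A : Θ, ∏ j : Fin κ, f (A, x + LL j d)) / (Fintype.card Θ : ℝ) / (Fintype.card Γ : ℝ)) := by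
    unfold Lam EE unif
    rw [Fintype.sum_prod_type, Finset.sum_comm]
    apply Finset.sum_congr rfl
    intro x _
    simp_rw [Finset.mul_sum]
    rw [Finset.sum_comm]
    apply Finset.sum_congr rfl
    intro d _
    rw [Finset.sum_div, Finset.sum_div, Finset.mul_sum]
    apply Finset.sum_congr rfl
    intro A _
    rw [Fintype.card_prod]
    push_cast
    field_simp
  have h2 : ∀ x : Γ, ∀ d : Fin κ → Γ, (∏ i, lam (d i)) *
      ((∑ A : Θ, ∏ j : Fin κ, f (A, x + LL j d)) / (Fintype.card Θ : ℝ) / (Fintype.card Γ : ℝ)) ≤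
      (∏ i, lam (d i)) * (c / (Fintype.card Γ : ℝ)) := by
    intro x d
    by_cases hd : ∀ i, lam (d i) ≠ 0
    · apply mul_le_mul_of_nonneg_left _ (hw d)
      apply div_le_div_of_nonneg_right _ hΓ.le
      rw [div_le_iff₀ hΘ]
      exact (hcon x d hd).le
    · push Not at hd
      obtain ⟨i, hi⟩ := hd
      have h3 : ∏ i, lam (d i) = 0 := Finset.prod_eq_zero (Finset.mem_univ i) hi
      rw [h3]; simp
  -- strictness
  have h4 : ∃ d : Fin κ → Γ, ∀ i, lam (d i) ≠ 0 := by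
    by_contra h5
    push Not at h5
    have h6 : ∑ d : Fin κ → Γ, ∏ i, lam (d i) = 0 := by
      apply Finset.sum_eq_zero
      intro d _
      obtain ⟨i, hi⟩ := h5 d
      exact Finset.prod_eq_zero (Finset.mem_univ i) hi
    rw [hsum] at h6
    exact one_ne_zero h6
  obtain ⟨d₀, hd₀⟩ := h4
  have h5 : Lam κ lam f < ∑ x : Γ, ∑ d : Fin κ → Γ, (∏ i, lam (d i)) * (c / (Fintype.card Γ : ℝ)) := by
    rw [h1]
    apply Finset.sum_lt_sum (fun x _ => Finset.sum_le_sum (fun d _ => h2 x d))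
    refine ⟨0, Finset.mem_univ _, ?_⟩
    apply Finset.sum_lt_sum (fun d _ => h2 0 d)
    refine ⟨d₀, Finset.mem_univ _, ?_⟩
    have h6 : 0 < ∏ i, lam (d₀ i) :=
      Finset.prod_pos (fun i _ => lt_of_le_of_ne (hl.1 _) (Ne.symm (hd₀ i)))
    apply mul_lt_mul_of_pos_left _ h6
    apply div_lt_div_of_pos_right _ hΓ
    rw [div_lt_iff₀ hΘ]
    exact hcon 0 d₀ hd₀
  have h6 : ∑ x : Γ, ∑ d : Fin κ → Γ, (∏ i, lam (d i)) * (c / (Fintype.card Γ : ℝ)) = c := by
    simp_rw [← Finset.sum_mul]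
    rw [hsum, Finset.sum_const, Finset.card_univ, nsmul_eq_mul]
    field_simp
  rw [h6] at h5
  linarith

/-- sums of box elements -/
lemma box_sum (s H V : ℕ) (l : List (Fin s → Fin H)) :
    ∃ D : Fin s → ℕ, (∀ p, l.length ≤ D p ∧ D p ≤ l.length * H) ∧
      (l.map (bx s H V)).sum = fun p => ((D p : ℕ) : ZMod V) := by
  induction l with
  | nil => exact ⟨fun _ => 0, fun p => by simp, by funext p; simp⟩
  | cons ξ l ih =>
    obtain ⟨D, hD, hs⟩ := ih
    refine ⟨fun p => D p + ((ξ p : ℕ) + 1), fun p => ?_, ?_⟩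
    · have h1 := hD p
      have h2 := (ξ p).2
      rw [List.length_cons]
      constructor
      · show l.length + 1 ≤ D p + ((ξ p : ℕ) + 1)
        omega
      · calc D p + ((ξ p : ℕ) + 1) ≤ l.length * H + H := by omega
          _ = (l.length + 1) * H := by ring
    · rw [List.map_cons, List.sum_cons, hs]
      funext p
      simp only [Pi.add_apply, bx]
      push_cast
      ring

theorem directions (κ n s H V : ℕ) [NeZero V] (hκ : 1 ≤ κ) (h : Fin κ → (Fin s → ZMod V))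
    (hh : ∀ i, lawN n (bx s H V) (h i) ≠ 0) :
    ∃ d : Fin s → ℕ, (∀ p, 1 ≤ d p ∧ d p ≤ κ * n * H) ∧
      ∀ j : Fin κ, LL j h = LL ⟨0, hκ⟩ h + fun p => (((j : ℕ) * d p : ℕ) : ZMod V) := by
  have h1 : ∀ i, ∃ D : Fin s → ℕ, (∀ p, 1 ≤ D p ∧ D p ≤ n * H) ∧
      h i = fun p => ((D p : ℕ) : ZMod V) := by
    intro i
    obtain ⟨l, hl1, hl2, hl3⟩ := lawN_support n _ _ (hh i)
    obtain ⟨D, hD, hs⟩ := box_sum s H V l
    refine ⟨D, fun p => ⟨hl1.trans (hD p).1, (hD p).2.trans (Nat.mul_le_mul_right H hl2)⟩, ?_⟩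
    rw [← hl3, hs]
  choose D hD hDh using h1
  refine ⟨fun p => ∑ i, D i p, fun p => ⟨?_, ?_⟩, fun j => ?_⟩
  · have h2 : D ⟨0, hκ⟩ p ≤ ∑ i, D i p :=
      Finset.single_le_sum (f := fun i => D i p) (fun i _ => Nat.zero_le _) (Finset.mem_univ _)
    exact (hD _ p).1.trans h2
  · calc ∑ i, D i p ≤ ∑ _i : Fin κ, n * H := Finset.sum_le_sum (fun i _ => (hD i p).2)
      _ = κ * n * H := by simp [mul_assoc]
  · have h2 : (fun p => (((j : ℕ) * ∑ i, D i p : ℕ) : ZMod V)) = ((j : ℕ) : ℤ) • ∑ i, h i := by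
      funext p
      simp only [Pi.smul_apply, Finset.sum_apply]
      push_cast
      rw [zsmul_eq_mul]
      push_cast
      congr 1
      apply Finset.sum_congr rfl
      intro i _
      rw [hDh i]
    rw [h2]
    unfold LL
    rw [Finset.smul_sum, ← Finset.sum_add_distrib]
    apply Finset.sum_congr rfl
    intro i _
    rw [← add_smul]
    congr 1
    simp
    ring

end Pool.Agent.H16.GPS
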